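import Pool.Agent.helper42.CQ.SpecC

set_option autoImplicit false

namespace Pool.Agent.helper42.CQ

open Finset Pool.Agent.helper24.CG

theorem AL2 (hREL : REL_stmt) : AL2_stmt := by
  intro N m M s H₂ H₁ K e hM hH he hdis
  rintro ⟨H₂', E, H₁', hEq, heE, z, hze, hzG⟩
  obtain ⟨E0, hE0, heE0⟩ := he
  have hGs := (hREL N M K hM).2.2.2.2.2.2.2.1
  have key : ∀ a' : List (ES N), H₁ = a' ++ (E :: H₁') → False := by
    intro a' ha
    have h1 : H₁ = (a' ++ [E]) ++ H₁' := by
      rw [ha, List.append_assoc]
      rfl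
    have h2 : z ∈ Gs M K s H₁ := by
      rw [h1]
      exact hGs s (a' ++ [E]) H₁' hzG
    exact (Finset.disjoint_left.1 hdis) hze h2
  rcases List.append_eq_append_iff.1 hEq with ⟨a', h1, h2⟩ | ⟨c', h1, h2⟩
  · exact key a' h2
  · cases c' with
    | nil =>
      apply key []
      simpa using h2.symm
    | cons x xs =>
      have h3 : E = x := by
        have h4 : (E :: H₁' : List (ES N)) = x :: (xs ++ H₁) := h2
        exact (List.cons.inj h4).1
      have hp := (List.pairwise_append.1 hH.disj).2.2
      have hEH : E ∈ H₂ := by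
        rw [h1, h3]
        simp
      have hd := hp E hEH E0 hE0
      exact (Finset.disjoint_left.1 hd) heE heE0

end Pool.Agent.helper42.CQ
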