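import Pool.Agent.helper42.CQ.SpecC

set_option autoImplicit false

namespace Pool.Agent.helper42.CQ

open Finset Pool.Agent.helper24.CG

theorem GS2_sum {V : Type} [DecidableEq V] (h : V → ℝ) (hh : ∀ v, 0 ≤ h v) :
    ∀ (Cs : List (Finset V)) (G : Finset V), Cs.Pairwise Disjoint → (∀ C ∈ Cs, C ⊆ G) →
      (Cs.map fun C => ∑ v ∈ C, h v).sum ≤ ∑ v ∈ G, h v := by
  intro Cs
  induction Cs with
  | nil =>
    intro G _ _
    simpa using Finset.sum_nonneg (fun v _ => hh v)
  | cons C Cs ih =>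
    intro G hp hs
    rw [List.pairwise_cons] at hp
    rw [List.map_cons, List.sum_cons]
    have hCG : C ⊆ G := hs C (by simp)
    have h1 := ih (G \ C) hp.2 (by
      intro D hD v hv
      rw [Finset.mem_sdiff]
      refine ⟨hs D (by simp [hD]) hv, ?_⟩
      intro hvC
      exact Finset.disjoint_left.1 (hp.1 D hD) hvC hv)
    have h2 : ∑ v ∈ G \ C, h v + ∑ v ∈ C, h v = ∑ v ∈ G, h v := Finset.sum_sdiff hCG
    linarith

theorem GS2_list {V : Type} (Cs : List (Finset V)) (F F' : Finset V → ℝ)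
    (h : ∀ C ∈ Cs, F C ≤ F' C) : (Cs.map F).sum ≤ (Cs.map F').sum := by
  induction Cs with
  | nil => simp
  | cons C Cs ih =>
    rw [List.map_cons, List.sum_cons, List.map_cons, List.sum_cons]
    exact add_le_add (h C (by simp)) (ih (fun D hD => h D (by simp [hD])))

theorem GS2 (hGSA : GSA_stmt) : GS2_stmt := by
  intro V _ l f s Gw G Cs hl hf hs hpw hC hG
  obtain ⟨xs, ys, hxs, hxs2, hys, hys2, hle⟩ := hGSA V l f G Gw Gw Cs hl (fun u v => (hf u v).1)
    (by
      intro C hCC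
      have := (hC C hCC).1
      exact Finset.card_pos.1 (by omega))
    (by
      intro v hv
      rcases (hG v).1 hv with h | h
      · exact Or.inl h
      · exact Or.inr (Or.inr h))
  obtain ⟨T, hT⟩ : ∃ T : ℝ, T = 1 / (s : ℝ) * ∑ v ∈ G, (l - min (∑ u ∈ G, f v u) l / 2)
      + (G.card : ℝ) := ⟨_, rfl⟩
  have hs0 : (0 : ℝ) < s := by
    exact_mod_cast (by omega : 0 < s)
  have hg0 : ∀ v, 0 ≤ l - min (∑ u ∈ G, f v u) l / 2 := by
    intro v
    have := min_le_right (∑ u ∈ G, f v u) l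
    linarith
  have hterm : ∀ C ∈ Cs, 1 / (C.card : ℝ) * ∑ v ∈ C, (2 * l - min (∑ u ∈ G \ C, f v u) l)
      ≤ 2 * ∑ v ∈ C, (1 / (s : ℝ) * (l - min (∑ u ∈ G, f v u) l / 2) + 1) := by
    intro C hCC
    have hCs := (hC C hCC).1
    have hCG : C ⊆ G := by
      intro v hv
      exact (hG v).2 (Or.inr ⟨C, hCC, hv⟩)
    have hCpos : (0 : ℝ) < C.card := by
      exact_mod_cast (by omega : 0 < C.card)
    rw [Finset.mul_sum, Finset.mul_sum]
    apply Finset.sum_le_sum
    intro v hv
    have ho0 : 0 ≤ ∑ u ∈ G \ C, f v u := Finset.sum_nonneg (fun u _ => (hf v u).1)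
    have ht : ∑ u ∈ G \ C, f v u + ∑ u ∈ C, f v u = ∑ u ∈ G, f v u := Finset.sum_sdiff hCG
    have hfC : ∑ u ∈ C, f v u ≤ C.card := by
      have := Finset.sum_le_card_nsmul C (fun u => f v u) 1 (fun u _ => (hf v u).2)
      simpa using this
    obtain ⟨o, ho⟩ : ∃ o : ℝ, o = ∑ u ∈ G \ C, f v u := ⟨_, rfl⟩
    obtain ⟨t, htt⟩ : ∃ t : ℝ, t = ∑ u ∈ G, f v u := ⟨_, rfl⟩
    rw [← ho] at ho0 ht
    rw [← htt] at ht
    rw [← ho, ← htt]
    have hmo0 : 0 ≤ min o l := le_min ho0 hl
    have hmol : min o l ≤ l := min_le_right _ _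
    have hmtl : min t l ≤ l := min_le_right _ _
    rcases le_total (2 * s) C.card with hbig | hsmall
    · have h1 : (1 : ℝ) / C.card ≤ 1 / (2 * s) := by
        apply one_div_le_one_div_of_le (by positivity)
        exact_mod_cast hbig
      have h2 : 1 / (C.card : ℝ) * (2 * l - min o l) ≤ 1 / (2 * s) * (2 * l) :=
        mul_le_mul h1 (by linarith) (by linarith) (by positivity)
      have h3 : 1 / (2 * (s : ℝ)) * (2 * l) = 2 * (1 / (s : ℝ) * (l / 2)) := by
        field_simp
      have h4 : 1 / (s : ℝ) * (l / 2) ≤ 1 / (s : ℝ) * (l - min t l / 2) :=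
        mul_le_mul_of_nonneg_left (by linarith) (by positivity)
      linarith
    · have h1 : (1 : ℝ) / C.card ≤ 1 / s := by
        apply one_div_le_one_div_of_le hs0
        exact_mod_cast hCs
      have h5 : (C.card : ℝ) ≤ 2 * s := by exact_mod_cast hsmall
      have h6 : min t l ≤ min o l + 2 * s := by
        rcases le_total o l with h7 | h7
        · rw [min_eq_left h7]
          exact (min_le_left _ _).trans (by linarith)
        · rw [min_eq_right h7]
          linarith
      have h2 : 1 / (C.card : ℝ) * (2 * l - min o l) ≤ 1 / s * (2 * l - min o l) :=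
        mul_le_mul_of_nonneg_right h1 (by linarith)
      have h3 : 1 / (s : ℝ) * (2 * l - min o l) ≤ 1 / s * (2 * l - min t l + 2 * s) :=
        mul_le_mul_of_nonneg_left (by linarith) (by positivity)
      have h4 : 1 / (s : ℝ) * (2 * l - min t l + 2 * s)
          = 2 * (1 / (s : ℝ) * (l - min t l / 2) + 1) := by
        field_simp
      linarith
  have hsum : cst l f xs Gw + cst l f ys Gw ≤ 2 * T := by
    refine hle.trans ?_
    refine (GS2_list Cs _ _ hterm).trans ?_
    have h1 : (Cs.map fun C => 2 * ∑ v ∈ C, (1 / (s : ℝ) * (l - min (∑ u ∈ G, f v u) l / 2) + 1)).sum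
        = (Cs.map fun C => ∑ v ∈ C, 2 * (1 / (s : ℝ) * (l - min (∑ u ∈ G, f v u) l / 2) + 1)).sum := by
      congr 1
      apply List.map_congr_left
      intro C _
      rw [Finset.mul_sum]
    rw [h1]
    have h2 := GS2_sum (fun v => 2 * (1 / (s : ℝ) * (l - min (∑ u ∈ G, f v u) l / 2) + 1))
      (by
        intro v
        have h3 : 0 ≤ 1 / (s : ℝ) * (l - min (∑ u ∈ G, f v u) l / 2) :=
          mul_nonneg (by positivity) (hg0 v)
        show 0 ≤ 2 * (1 / (s : ℝ) * (l - min (∑ u ∈ G, f v u) l / 2) + 1)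
        linarith) Cs G hpw
      (by
        intro C hCC v hv
        exact (hG v).2 (Or.inr ⟨C, hCC, hv⟩))
    refine h2.trans (le_of_eq ?_)
    rw [← Finset.mul_sum, Finset.sum_add_distrib, ← Finset.mul_sum, hT]
    simp
  rcases le_total (cst l f xs Gw) T with h | h
  · exact ⟨xs, hxs, hxs2, by rw [← hT]; exact h⟩
  · refine ⟨ys, hys, hys2, ?_⟩
    rw [← hT]
    linarith

end Pool.Agent.helper42.CQ
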