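import Pool.Agent.helper42.CQ.SpecC

set_option autoImplicit false

namespace Pool.Agent.helper42.CQ

open Finset Pool.Agent.helper24.CG

theorem RAR : RAR_stmt := by
  intro ε a hε ha ha1
  have hE : 0 < ε / (2 * (2 + ε)) := by positivity
  have hEe : ε / (2 * (2 + ε)) * (2 + ε) = ε / 2 := by
    field_simp
  obtain ⟨E, hEdef⟩ : ∃ E : ℝ, E = ε / (2 * (2 + ε)) := ⟨_, rfl⟩
  rw [← hEdef] at hE hEe
  have h2a : 0 < 2 * a - 1 := by linarith
  have ha0 : 0 < a := by linarith
  have hinv : 1 / (2 * a) < 1 := by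
    rw [div_lt_one (by positivity)]
    linarith
  have hinv0 : 0 < 1 / (2 * a) := by positivity
  obtain ⟨θ, hθ⟩ : ∃ θ : ℝ, θ = (1 - 1 / (2 * a)) * (a - 1 / 2) := ⟨_, rfl⟩
  have hθ0 : 0 < θ := by
    rw [hθ]
    exact mul_pos (by linarith) (by linarith)
  have hθ1 : θ ≤ 1 := by
    rw [hθ]
    have := mul_le_mul (show 1 - 1 / (2 * a) ≤ 1 by linarith) (show a - 1 / 2 ≤ 1 by linarith)
      (by linarith) (by norm_num)
    linarith
  have hk0 : 0 < E * (2 * a - 1) := mul_pos hE h2a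
  have hkE : E * (2 * a - 1) ≤ E := by
    have := mul_le_mul_of_nonneg_left (show 2 * a - 1 ≤ 1 by linarith) hE.le
    linarith
  refine ⟨E * (2 * a - 1) * θ / 10, by positivity, ?_⟩
  obtain ⟨δ, hδ⟩ : ∃ δ : ℝ, δ = E * (2 * a - 1) * θ / 10 := ⟨_, rfl⟩
  rw [← hδ]
  have hδ0 : 0 < δ := by
    rw [hδ]
    positivity
  intro q l W ST SU t hq hqδ hl hlq hW hSU hST hEq hor
  have hL : E * q ≤ q / 2 - l := by
    have h1 : 0 ≤ (2 + ε) * (q / 2 - l - E * q) := by
      have : (2 + ε) * (q / 2 - l - E * q) = (2 + ε) * q / 2 - (2 + ε) * l - (E * (2 + ε)) * q := by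
        ring
      rw [this, hEe]
      linarith
    have h2 : 0 ≤ q / 2 - l - E * q := by
      by_contra hc
      push Not at hc
      have := mul_neg_of_pos_of_neg (show 0 < 2 + ε by linarith) hc
      linarith
    linarith
  have hq2 : 0 < q ^ 2 := by positivity
  have hEq0 : 0 ≤ E * q := by positivity
  rw [← hθ] at hor
  rcases hor with hA | hB
  · have h1 : (2 * a - 1) * q ≤ q - 2 * (1 - a) * (l + q / 2) := by
      have h3 : 2 * (1 - a) * (l + q / 2) ≤ 2 * (1 - a) * q :=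
        mul_le_mul_of_nonneg_left (by linarith) (by linarith)
      linarith
    have h2 : (E * q) * ((2 * a - 1) * q) ≤ (q / 2 - l) * (q - 2 * (1 - a) * (l + q / 2)) :=
      mul_le_mul hL h1 (by positivity) (by linarith)
    have h3 : (q / 2 - l) * (q - 2 * (1 - a) * (l + q / 2)) ≤ SU + q / 2 + δ * q ^ 2 := by
      have e : (q / 2 - l) * (q - 2 * (1 - a) * (l + q / 2))
          = q ^ 2 / 2 - q * l + 2 * (1 - a) * l ^ 2 - (1 - a) * q ^ 2 / 2 := by ring
      rw [e]
      have e2 : q * (q - 1) / 2 = q ^ 2 / 2 - q / 2 := by ring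
      rw [e2] at hEq
      linarith
    have h4 : E * (2 * a - 1) * q ^ 2 ≤ 3 * δ * q ^ 2 := by
      have e : E * (2 * a - 1) * q ^ 2 = (E * q) * ((2 * a - 1) * q) := by ring
      rw [e]
      linarith
    have h5 : E * (2 * a - 1) ≤ 3 * δ := le_of_mul_le_mul_right h4 hq2
    have h6 : δ ≤ E * (2 * a - 1) / 10 := by
      rw [hδ]
      have := mul_le_mul_of_nonneg_left hθ1 hk0.le
      linarith
    linarith
  · have h1 : t * θ ≤ 2 * δ * q ^ 2 := by linarith
    have h2 : E * q ^ 2 ≤ q * (q / 2 - l) := by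
      have := mul_le_mul_of_nonneg_left hL (show (0:ℝ) ≤ q by linarith)
      have e : E * q ^ 2 = q * (E * q) := by ring
      rw [e]
      exact this
    have h3 : ST + SU ≤ t + δ * q ^ 2 := by linarith
    have h4 : E * q ^ 2 ≤ t + 3 * δ * q ^ 2 := by
      have e2 : q * (q - 1) / 2 = q * (q / 2 - l) + q * l - q / 2 := by ring
      rw [e2] at hEq
      linarith
    have h5 : E * θ * q ^ 2 ≤ 5 * δ * q ^ 2 := by
      have h6 := mul_le_mul_of_nonneg_right h4 hθ0.le
      have h7 : 3 * δ * q ^ 2 * θ ≤ 3 * δ * q ^ 2 := by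
        have := mul_le_mul_of_nonneg_left hθ1 (show 0 ≤ 3 * δ * q ^ 2 by positivity)
        linarith
      have e : E * q ^ 2 * θ = E * θ * q ^ 2 := by ring
      have e2 : (t + 3 * δ * q ^ 2) * θ = t * θ + 3 * δ * q ^ 2 * θ := by ring
      rw [e, e2] at h6
      linarith
    have h6 : E * θ ≤ 5 * δ := le_of_mul_le_mul_right h5 hq2
    have h7 : δ ≤ E * θ / 10 := by
      rw [hδ]
      have := mul_le_mul_of_nonneg_right hkE hθ0.le
      linarith
    have h8 : 0 < E * θ := mul_pos hE hθ0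
    linarith

end Pool.Agent.helper42.CQ
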