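import Pool.Agent.helper42.CQ.SpecC

set_option autoImplicit false

namespace Pool.Agent.helper42.CQ

open Finset Pool.Agent.helper24.CG

theorem RBR : RBR_stmt := by
  intro ε a r ρ lam hε ha ha1 hr hrρ hrθ hlam hlam8 hχ
  have hE : 0 < ε / (2 * (2 + ε)) := by positivity
  have hEe : ε / (2 * (2 + ε)) * (2 + ε) = ε / 2 := by
    field_simp
  obtain ⟨E, hEdef⟩ : ∃ E : ℝ, E = ε / (2 * (2 + ε)) := ⟨_, rfl⟩
  rw [← hEdef] at hE hEe
  have h2a : 0 < 2 * a - 1 := by linarith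
  obtain ⟨c, hc⟩ : ∃ c : ℝ, c = (1 - a) / r := ⟨_, rfl⟩
  have hc0 : 0 ≤ c := by
    rw [hc]
    exact div_nonneg (by linarith) hr.le
  have hcr : c * r = 1 - a := by
    rw [hc]
    field_simp
  rw [← hc] at hlam8
  obtain ⟨i, hi⟩ : ∃ i : ℝ, i = 1 / (2 * a - 1) := ⟨_, rfl⟩
  have hi0 : 0 < i := by
    rw [hi]
    positivity
  have hia : i * (2 * a - 1) = 1 := by
    rw [hi]
    field_simp
  have hD0 : 0 < 3 * c + 3 + i := by linarith
  refine ⟨E / (2 * (3 * c + 3 + i)), by positivity, ?_⟩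
  obtain ⟨δ, hδ⟩ : ∃ δ : ℝ, δ = E / (2 * (3 * c + 3 + i)) := ⟨_, rfl⟩
  rw [← hδ]
  have hδ0 : 0 < δ := by
    rw [hδ]
    positivity
  have hδD : (3 * c + 3 + i) * δ = E / 2 := by
    rw [hδ]
    field_simp
  intro q l W ST SU ts t2 SU2 hq hqδ hl hlq hts ht2 hW hST hSU hSU2 hEq hor1 hor2
  have hL : E * q ≤ q / 2 - l := by
    have h1 : 0 ≤ (2 + ε) * (q / 2 - l - E * q) := by
      have : (2 + ε) * (q / 2 - l - E * q) = (2 + ε) * q / 2 - (2 + ε) * l - (E * (2 + ε)) * q := by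
        ring
      rw [this, hEe]
      linarith
    have h2 : 0 ≤ q / 2 - l - E * q := by
      by_contra hc
      push Not at hc
      have := mul_neg_of_pos_of_neg (show 0 < 2 + ε by linarith) hc
      linarith
    linarith
  have hq2 : 0 < q ^ 2 := by positivity
  have hEq0 : 0 ≤ E * q := by positivity
  have e2 : q * (q - 1) / 2 = q ^ 2 / 2 - q / 2 := by ring
  rw [e2] at hEq
  have hrts : r * ts ≤ SU + 2 * δ * q ^ 2 := by
    rcases hor1 with hA | hB
    · have h1 : 0 ≤ q - 2 * (1 - a + ρ) * (l + q / 2) := by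
        have h3 : (1 - a + ρ) * (l + q / 2) ≤ (1 / 2) * (l + q / 2) :=
          mul_le_mul_of_nonneg_right hχ (by linarith)
        linarith
      have h2 : 0 ≤ (q / 2 - l) * (q - 2 * (1 - a + ρ) * (l + q / 2)) :=
        mul_nonneg (by linarith) h1
      have e : (q / 2 - l) * (q - 2 * (1 - a + ρ) * (l + q / 2))
          = q ^ 2 / 2 - q * l + 2 * (1 - a + ρ) * l ^ 2 - (1 - a + ρ) * q ^ 2 / 2 := by ring
      rw [e] at h2
      have h3 : r * ts ≤ ρ * ts := mul_le_mul_of_nonneg_right hrρ hts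
      linarith
    · have h3 : r * ts ≤ ts * ((1 - 1 / (2 * a)) * (a - 1 / 2)) := by
        rw [mul_comm ts]
        exact mul_le_mul_of_nonneg_right hrθ hts
      have h4 : 0 ≤ δ * q ^ 2 := by positivity
      linarith
  have hsum : ST + SU ≤ t2 / 8 + (3 * c + 1) * δ * q ^ 2 := by
    have h1 : (1 - a) * ts ≤ c * (SU + 2 * δ * q ^ 2) := by
      rw [← hcr, mul_assoc]
      exact mul_le_mul_of_nonneg_left hrts hc0
    have h2 : (c + 1) * SU ≤ (c + 1) * (lam * t2 + δ * q ^ 2) :=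
      mul_le_mul_of_nonneg_left hSU (by linarith)
    have h3 : (c + 1) * lam * t2 ≤ 1 / 8 * t2 := mul_le_mul_of_nonneg_right hlam8 ht2
    have h4 : ST + SU ≤ c * (SU + 2 * δ * q ^ 2) + SU := by linarith
    have h5 : c * (SU + 2 * δ * q ^ 2) + SU = (c + 1) * SU + 2 * c * δ * q ^ 2 := by ring
    have h6 : (c + 1) * (lam * t2 + δ * q ^ 2) = (c + 1) * lam * t2 + (c + 1) * δ * q ^ 2 := by ring
    have h7 : (3 * c + 1) * δ * q ^ 2 = (c + 1) * δ * q ^ 2 + 2 * c * δ * q ^ 2 := by ring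
    rw [h7]
    linarith
  have hEq2 : E * q ^ 2 ≤ q * (q / 2 - l) := by
    have := mul_le_mul_of_nonneg_left hL (show (0:ℝ) ≤ q by linarith)
    have e : E * q ^ 2 = q * (E * q) := by ring
    rw [e]
    exact this
  have hDq : (3 * c + 3 + i) * δ * q ^ 2 = E / 2 * q ^ 2 := by rw [hδD]
  have hDq' : (3 * c + 3 + i) * δ * q ^ 2
      = (3 * c + 1) * δ * q ^ 2 + 2 * δ * q ^ 2 + i * δ * q ^ 2 := by ring
  have hEE : 0 < E * q ^ 2 := mul_pos hE hq2
  have hiq : 0 ≤ i * δ * q ^ 2 := by positivity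
  have hδq : 0 < δ * q ^ 2 := by positivity
  rcases hor2 with hA | hB
  · have h1 : 3 / 4 * q ≤ q - (l + q / 2) / 4 := by linarith
    have h2 : (E * q) * (3 / 4 * q) ≤ (q / 2 - l) * (q - (l + q / 2) / 4) :=
      mul_le_mul hL h1 (by linarith) (by linarith)
    have e : (q / 2 - l) * (q - (l + q / 2) / 4)
        = q ^ 2 / 2 - q * l + l ^ 2 / 4 - q ^ 2 / 16 := by ring
    rw [e] at h2
    have e3 : (E * q) * (3 / 4 * q) = 3 / 4 * (E * q ^ 2) := by ring
    rw [e3] at h2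
    linarith
  · have h1 : t2 * ((1 - 1 / 2) * (a - 1 / 2)) ≤ 2 * (δ * q ^ 2) := by linarith
    have h2 : t2 / 8 ≤ i * δ * q ^ 2 := by
      have h3 := mul_le_mul_of_nonneg_left h1 hi0.le
      have e1 : i * (t2 * ((1 - 1 / 2) * (a - 1 / 2))) = (i * (2 * a - 1)) * t2 / 4 := by ring
      rw [e1, hia] at h3
      have e4 : i * (2 * (δ * q ^ 2)) = 2 * (i * δ * q ^ 2) := by ring
      rw [e4] at h3
      linarith
    have e5 : q * (q / 2 - l) = q ^ 2 / 2 - q * l := by ring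
    rw [e5] at hEq2
    linarith

end Pool.Agent.helper42.CQ
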