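import Pool.Agent.helper42.CQ.SpecC

set_option autoImplicit false

namespace Pool.Agent.helper42.CQ

open Finset Pool.Agent.helper24.CG

theorem RVI (hLM6 : LM6_stmt) : RVI_stmt := by
  intro a χ f l δ γ e η dG dE dF nE nX gG sE HG X Q ha ha1 hχ hχa hχ2 hf hf1 hl hδ hγ he hη hdG hdE
    hdF hnE hnX hg hs hX hηl hnX2 hnE2 hHG h1 h2
  obtain ⟨d, hd⟩ : ∃ d : ℝ, d = δ / a := ⟨_, rfl⟩
  have hd0 : 0 ≤ d := by
    rw [hd]
    positivity
  have hda : a * d = δ := by
    rw [hd]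
    field_simp
  have hld : l * δ / a = l * d := by
    rw [hd]
    ring
  rw [hld]
  obtain ⟨θ, hθ⟩ : ∃ θ : ℝ, θ = l - a * γ := ⟨_, rfl⟩
  have haγ : 0 ≤ a * γ := by positivity
  have hae : 0 ≤ a * e := by positivity
  have hθ0 : 0 ≤ θ := by
    rw [hθ]
    linarith
  have hθl : θ ≤ l := by
    rw [hθ]
    linarith
  have hf0 : 0 ≤ f := by
    have : 0 ≤ 4 * a * χ := by positivity
    linarith
  have hχ1 : χ ≤ 1 := by
    have : 0 ≤ χ * (2 * a) := by positivity
    linarith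
  have hP := hLM6 a χ θ e (η + d) ha ha1 hχ hχa hχ2 (by linarith) he (by linarith)
    (by rw [hθ]; linarith)
    (by
      have e1 : a * (e + (η + d)) = a * (γ + e + η) + a * d - a * γ := by ring
      rw [e1, hda, hθ]
      linarith)
  unfold Phi at hP
  obtain ⟨m1, hm1⟩ : ∃ m1 : ℝ, m1 = max 0 (θ - e - (η + d) / 2) := ⟨_, rfl⟩
  obtain ⟨m2, hm2⟩ : ∃ m2 : ℝ, m2 = max 0 (θ - e - η / 2) := ⟨_, rfl⟩
  rw [← hm1] at hP
  have hm10 : 0 ≤ m1 := by
    rw [hm1]
    exact le_max_left _ _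
  have hm12 : m1 ≤ m2 := by
    rw [hm1, hm2]
    exact max_le_max le_rfl (by linarith)
  have hm1θ : m1 ≤ θ := by
    rw [hm1]
    exact max_le hθ0 (by linarith)
  have hm3 : (1 - χ) * (η + d) * m1 ≤ (1 - χ) * η * m2 + (1 - χ) * d * θ := by
    have e1 : (1 - χ) * (η + d) * m1 = (1 - χ) * η * m1 + (1 - χ) * d * m1 := by ring
    rw [e1]
    have i1 : (1 - χ) * η * m1 ≤ (1 - χ) * η * m2 :=
      mul_le_mul_of_nonneg_left hm12 (mul_nonneg (by linarith) hη)
    have i2 : (1 - χ) * d * m1 ≤ (1 - χ) * d * θ :=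
      mul_le_mul_of_nonneg_left hm1θ (mul_nonneg (by linarith) hd0)
    linarith
  have hηθ : η * θ ≤ dF + nX := by
    have e1 : η * θ = η * l - a * η * γ := by
      rw [hθ]
      ring
    rw [e1]
    linarith
  have hkey : χ * η * θ + (1 - χ) * η * m2 ≤ dF + χ * nX := by
    rcases le_total 0 (θ - e - η / 2) with hc | hc
    · have e1 : m2 = θ - e - η / 2 := by
        rw [hm2]
        exact max_eq_right hc
      rw [e1]
      have i1 : (1 - χ) * nX ≤ (1 - χ) * (e * η + η ^ 2 / 2) :=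
        mul_le_mul_of_nonneg_left hnX2 (by linarith)
      have e2 : χ * η * θ + (1 - χ) * η * (θ - e - η / 2)
          = η * θ - (1 - χ) * (e * η + η ^ 2 / 2) := by ring
      rw [e2]
      linarith
    · have e1 : m2 = 0 := by
        rw [hm2]
        exact max_eq_left hc
      rw [e1]
      have i1 : χ * (η * θ) ≤ χ * (dF + nX) := mul_le_mul_of_nonneg_left hηθ hχ
      have i2 : χ * dF ≤ dF := by
        have := mul_le_mul_of_nonneg_right hχ1 hdF
        linarith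
      have e2 : χ * η * θ + (1 - χ) * η * 0 = χ * (η * θ) := by ring
      rw [e2]
      linarith
  have hgf : f * (γ * l - a * γ ^ 2 / 2 - dG) ≤ f * gG := mul_le_mul_of_nonneg_left hg hf0
  have hHf : (1 - f) * HG ≤ (1 - f) * dG := mul_le_mul_of_nonneg_left hHG (by linarith)
  have hEf : (1 - χ) * nE ≤ (1 - χ) * (e ^ 2 / 2) := mul_le_mul_of_nonneg_left hnE2 (by linarith)
  have hγl : 0 ≤ γ * l - a * γ ^ 2 / 2 := by
    have e1 : γ * l - a * γ ^ 2 / 2 = γ * (l - a * γ / 2) := by ring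
    rw [e1]
    exact mul_nonneg hγ (by linarith)
  have hff : 4 * a * χ * (γ * l - a * γ ^ 2 / 2) ≤ f * (γ * l - a * γ ^ 2 / 2) :=
    mul_le_mul_of_nonneg_right hf hγl
  have hsq : 4 * a * χ * (γ * l - a * γ ^ 2 / 2) = 2 * χ * l ^ 2 - 2 * χ * θ ^ 2 := by
    rw [hθ]
    ring
  have heθ : e * θ = e * l - a * e * γ := by
    rw [hθ]
    ring
  have hθd : θ * d ≤ l * d := mul_le_mul_of_nonneg_right hθl hd0
  have e3 : χ * (η + d) * θ + (1 - χ) * d * θ = χ * η * θ + θ * d := by ring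
  have e4 : f * (γ * l - a * γ ^ 2 / 2 - dG) = f * (γ * l - a * γ ^ 2 / 2) - f * dG := by ring
  have e5 : (1 - f) * dG = dG - f * dG := by ring
  have e6 : χ * (nE + nX) = χ * nE + χ * nX := by ring
  have e7 : (1 - χ) * nE = nE - χ * nE := by ring
  have e8 : (1 - χ) * (e ^ 2 / 2) = (1 - χ) * e ^ 2 / 2 := by ring
  rw [e4] at hgf
  rw [e5] at hHf
  rw [e6] at hX
  rw [e7, e8] at hEf
  linarith

end Pool.Agent.helper42.CQ
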